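import Pool.Agent.Work.MP_1ce445_n3odd.Up4
import Pool.Agent.Work.MP_1ce445_n3.CMA
import Pool.Agent.Work.MP_1ce445_n3.CMB
import Pool.Agent.Work.MP_1ce445_n3.CST
import Pool.Agent.Work.MP_1ce445_n3.LO3

/-!
The exact values of `P n (n - 3)`, odd `n ≥ 9`, and `P n (n - 4)`, odd `n ≥ 13`, without hypotheses (helper83).
-/

set_option autoImplicit false

namespace Pool.Agent.Work.MP_1ce445_n3odd

open Pool.Agent.Work.MP_1ce445_co_56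

/-- For every odd `n ≥ 9`: `P n (n - 3) = (n - 1) ^ (n - 3)`. -/
theorem h_odd3 {n : ℕ} (h9 : 9 ≤ n) (hn : Odd n) : P n (n - 3) = (n - 1) ^ (n - 3) :=
  odd3 h9 hn

/-- For every odd `n ≥ 13`: `P n (n - 4) = (n - 1) ^ (n - 5) * (n - 3)`. -/
theorem h_odd4 {n : ℕ} (h13 : 13 ≤ n) (hn : Odd n) :
    P n (n - 4) = (n - 1) ^ (n - 5) * (n - 3) :=
  odd4 (MP_1ce445_n3.stmt_LO3 (MP_1ce445_n3.stmt_CMA MP_1ce445_n3.stmt_CST
    (MP_1ce445_n3.stmt_CMB MP_1ce445_n3.stmt_CST))) h13 hn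

end Pool.Agent.Work.MP_1ce445_n3odd
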