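import Pool.Agent.Work.MP_1ce445_n3odd.Ext

/-!
The program which checks the conditions on a table of the general construction (helper83).
-/

set_option autoImplicit false

namespace Pool.Agent.Work.MP_1ce445_n3odd

open Finset

/-- both values -/
def bb : List Bool := [false, true]

lemma mem_bb (p : Bool) : p ∈ bb := by cases p <;> simp [bb]

/-- the check -/
def Table.chk {f f' : ℕ} (A : Table f f') : Bool :=
  (bb.all fun p => bb.all fun q => (rg A.K).all fun t =>
    match A.tb p q t with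
    | .inl (F, o) => decide (A.tb q p (-t) = .inl (F, o + 2 * t)) &&
        (decide (p = q ∧ t = 0) || (decide (o.natAbs ≤ A.K) &&
          bif decide ((p, o) ∈ A.TF F) then decide ((q, o + 2 * t) ∈ A.TF F)
          else decide (A.nb F p o = .inl (q, o + 2 * t)) && decide ((q, o + 2 * t) ∉ A.TF F)))
    | .inr k => decide (A.tb q p (-t) = .inr k) && (decide (p = q ∧ t = 0) || decide (q = !p))) &&
  ((List.finRange f).all fun i => bb.all fun p =>
    decide (A.nb (A.io i p).1 p (A.io i p).2 = .inr i) &&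
      decide ((p, (A.io i p).2) ∉ A.TF (A.io i p).1) && decide ((A.io i p).2.natAbs ≤ A.K)) &&
  (bb.all fun F => bb.all fun p => (rg A.K).all fun s => decide ((p, s) ∈ A.TF F) ||
    (bb.any fun q => (rg A.K).any fun t => decide (p ≠ q ∨ t ≠ 0) &&
      decide (A.tb p q t = .inl (F, s))) ||
    (List.finRange f).any fun i => decide (A.io i p = (F, s))) &&
  (bb.all fun F => decide (A.TF F ≠ []) && (A.TF F).all fun x => decide (x.2.natAbs ≤ A.K) &&
    bb.any fun q => (rg A.K).any fun t => decide (x.1 ≠ q ∨ t ≠ 0) &&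
      decide (A.tb x.1 q t = .inl (F, x.2))) &&
  ((List.finRange f').all fun k => bb.all fun p => (rg A.K).any fun t =>
    decide (A.tb p (!p) t = .inr k) && (rg A.K).all fun t' =>
      decide (A.tb p (!p) t' = .inr k → t' = t)) &&
  (List.finRange f).all fun i => decide ((A.io i false).1 ≠ (A.io i true).1)

lemma mem_rg' (K : ℕ) (t : ℤ) : t ∈ rg K ↔ t.natAbs ≤ K := by
  rw [mem_rg]; omega

theorem ok_of_chk {f f' : ℕ} {A : Table f f'} (h : A.chk = true) : A.Ok := by
  unfold Table.chk at h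
  simp only [Bool.and_eq_true, List.all_eq_true] at h
  obtain ⟨⟨⟨⟨⟨h1, h2⟩, h3⟩, h4⟩, h5⟩, h6⟩ := h
  have H1 : ∀ p q, ∀ t : ℤ, t.natAbs ≤ A.K → ∀ F o, A.tb p q t = .inl (F, o) →
      A.tb q p (-t) = .inl (F, o + 2 * t) ∧ ((p ≠ q ∨ t ≠ 0) → o.natAbs ≤ A.K ∧
        ((p, o) ∈ A.TF F → (q, o + 2 * t) ∈ A.TF F) ∧
        ((p, o) ∉ A.TF F → A.nb F p o = .inl (q, o + 2 * t) ∧ (q, o + 2 * t) ∉ A.TF F)) := by
    intro p q t ht F o e
    have h7 := h1 p (mem_bb p) q (mem_bb q) t ((mem_rg' _ _).2 ht)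
    rw [e] at h7
    simp only [Bool.and_eq_true, decide_eq_true_eq, Bool.or_eq_true] at h7
    refine ⟨h7.1, fun hpt => ?_⟩
    have h8 := h7.2.resolve_left (fun hc => by
      rcases hpt with h | h
      · exact h hc.1
      · exact h hc.2)
    refine ⟨h8.1, ?_, ?_⟩
    · intro h9
      have h10 := h8.2
      rw [decide_eq_true h9] at h10
      simpa using h10
    · intro h9
      have h10 := h8.2
      rw [decide_eq_false h9] at h10
      simpa using h10
  have H1' : ∀ p q, ∀ t : ℤ, t.natAbs ≤ A.K → ∀ k, A.tb p q t = .inr k →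
      A.tb q p (-t) = .inr k ∧ ((p ≠ q ∨ t ≠ 0) → q = !p) := by
    intro p q t ht k e
    have h7 := h1 p (mem_bb p) q (mem_bb q) t ((mem_rg' _ _).2 ht)
    rw [e] at h7
    simp only [Bool.and_eq_true, decide_eq_true_eq, Bool.or_eq_true] at h7
    refine ⟨h7.1, fun hpt => ?_⟩
    exact h7.2.resolve_left (fun hc => by
      rcases hpt with h | h
      · exact h hc.1
      · exact h hc.2)
  refine ⟨?_, ?_, ?_, ?_, ?_, ?_, ?_, ?_, ?_, ?_, ?_, ?_⟩
  · intro p q t ht F o e
    exact (H1 p q t ht F o e).1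
  · intro p q t ht k e
    exact (H1' p q t ht k e).1
  · intro p q t ht hpt F o e
    exact ((H1 p q t ht F o e).2 hpt).1
  · intro p q t ht hpt F o e hn
    exact ((H1 p q t ht F o e).2 hpt).2.2 hn
  · intro i p
    have h7 := h2 i (List.mem_finRange i) p (mem_bb p)
    simp only [decide_eq_true_eq] at h7
    exact ⟨h7.1.1, h7.1.2, h7.2⟩
  · intro F p s hs hn
    have h7 := h3 F (mem_bb F) p (mem_bb p) s ((mem_rg' _ _).2 hs)
    simp only [Bool.or_eq_true, decide_eq_true_eq, List.any_eq_true, Bool.and_eq_true] at h7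
    rcases h7 with (h7 | ⟨q, -, t, ht, h8, h9⟩) | ⟨i, -, h8⟩
    · exact absurd h7 hn
    · left
      exact ⟨q, t, (mem_rg' _ _).1 ht, h8, h9⟩
    · right
      exact ⟨i, h8⟩
  · intro p q t ht hpt F o e hn
    exact ((H1 p q t ht F o e).2 hpt).2.1 hn
  · intro F x hx
    have h7 := (h4 F (mem_bb F)).2 x hx
    simp only [decide_eq_true_eq, List.any_eq_true, Bool.and_eq_true] at h7
    obtain ⟨h8, q, -, t, ht, h9, h10⟩ := h7
    exact ⟨h8, q, t, (mem_rg' _ _).1 ht, h9, h10⟩
  · intro F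
    have h7 := (h4 F (mem_bb F)).1
    simpa using h7
  · intro p q t ht hpt k e
    exact (H1' p q t ht k e).2 hpt
  · intro k p
    have h7 := h5 k (List.mem_finRange k) p (mem_bb p)
    simp only [decide_eq_true_eq, List.any_eq_true, Bool.and_eq_true, List.all_eq_true] at h7
    obtain ⟨t, ht, h8, h9⟩ := h7
    exact ⟨t, (mem_rg' _ _).1 ht, h8, fun t' ht' e => h9 t' ((mem_rg' _ _).2 ht') e⟩
  · intro i
    have h7 := h6 i (List.mem_finRange i)
    simpa using h7

/-- decoding of an entry -/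
def dec (f' : ℕ) [NeZero f'] : ℕ × ℤ → (Bool × ℤ) ⊕ Fin f'
  | (0, o) => .inl (false, o)
  | (1, o) => .inl (true, o)
  | (k + 2, _) => .inr (Fin.ofNat f' k)

/-- decoding of a partner -/
def decn (f : ℕ) [NeZero f] : ℕ × ℤ → (Bool × ℤ) ⊕ Fin f
  | (0, o) => .inl (false, o)
  | (1, o) => .inl (true, o)
  | (k + 2, _) => .inr (Fin.ofNat f k)

/-- a table from lists: `L` has the rows `(p, q)` = 00, 01, 10, 11, `N` has the rows `(F, p)`, `I` the
rows `(family, position)` for the copies 0 and 1, `TL` the two special sets -/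
def tbl (f f' : ℕ) [NeZero f] [NeZero f'] (K : ℕ) (L N : List (List (ℕ × ℤ)))
    (I : List (List (Bool × ℤ))) (TL : List (List (Bool × ℤ))) : Table f f' where
  K := K
  tb p q t := dec f' ((L.getD (2 * p.toNat + q.toNat) []).getD (t + K).toNat (2, 0))
  io i p := (I.getD i []).getD p.toNat (false, 0)
  nb F p s := decn f ((N.getD (2 * F.toNat + p.toNat) []).getD (s + K).toNat (2, 0))
  TF F := TL.getD F.toNat []

end Pool.Agent.Work.MP_1ce445_n3odd
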