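import Pool.Agent.Work.MP_1ce445_n3odd.Tab

/-!
The general construction (helper83): vertices `(Bool × ZMod m) ⊕ Fin f`, `m` odd, from a finite table.
-/

set_option autoImplicit false

namespace Pool.Agent.Work.MP_1ce445_n3odd

open Finset

/-- A finite table. `tb p q t`: family and position of the pair `(x, p)`, `(x + 2t, q)`, `|t| ≤ K`, or
a fixed colour; `io i p`: family and position of the pairs of the fixed vertex `i` with the copy `p`;
`nb F p s`: partner of the vertex `(s, p)` in the base class of the family `F`; `TF`: special sets. -/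
structure Table (f f' : ℕ) where
  K : ℕ
  tb : Bool → Bool → ℤ → (Bool × ℤ) ⊕ Fin f'
  io : Fin f → Bool → Bool × ℤ
  nb : Bool → Bool → ℤ → (Bool × ℤ) ⊕ Fin f
  TF : Bool → List (Bool × ℤ)

/-- the integers from `-K` to `K` -/
def rg (K : ℕ) : List ℤ := (List.range (2 * K + 1)).map (fun i : ℕ => (i : ℤ) - (K : ℤ))

lemma mem_rg (K : ℕ) (t : ℤ) : t ∈ rg K ↔ -(K : ℤ) ≤ t ∧ t ≤ K := by
  unfold rg
  rw [List.mem_map]
  constructor
  · rintro ⟨i, hi, rfl⟩
    rw [List.mem_range] at hi
    omega
  · rintro ⟨h1, h2⟩
    refine ⟨(t + K).toNat, ?_, ?_⟩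
    · rw [List.mem_range]; omega
    · rw [Int.toNat_of_nonneg (by omega)]; ring

/-- The conditions on a table. -/
structure Table.Ok {f f' : ℕ} (A : Table f f') : Prop where
  sym1 : ∀ p q, ∀ t, t.natAbs ≤ A.K → ∀ F o, A.tb p q t = .inl (F, o) →
    A.tb q p (-t) = .inl (F, o + 2 * t)
  sym2 : ∀ p q, ∀ t, t.natAbs ≤ A.K → ∀ k, A.tb p q t = .inr k → A.tb q p (-t) = .inr k
  bd : ∀ p q, ∀ t, t.natAbs ≤ A.K → (p ≠ q ∨ t ≠ 0) → ∀ F o, A.tb p q t = .inl (F, o) →
    o.natAbs ≤ A.K
  part : ∀ p q, ∀ t, t.natAbs ≤ A.K → (p ≠ q ∨ t ≠ 0) → ∀ F o, A.tb p q t = .inl (F, o) →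
    (p, o) ∉ A.TF F → A.nb F p o = .inl (q, o + 2 * t) ∧ (q, o + 2 * t) ∉ A.TF F
  pario : ∀ i p, A.nb (A.io i p).1 p (A.io i p).2 = .inr i ∧ (p, (A.io i p).2) ∉ A.TF (A.io i p).1 ∧
    (A.io i p).2.natAbs ≤ A.K
  ex : ∀ F p, ∀ s : ℤ, s.natAbs ≤ A.K → (p, s) ∉ A.TF F →
    (∃ q t, t.natAbs ≤ A.K ∧ (p ≠ q ∨ t ≠ 0) ∧ A.tb p q t = .inl (F, s)) ∨ ∃ i, A.io i p = (F, s)
  clT : ∀ p q, ∀ t, t.natAbs ≤ A.K → (p ≠ q ∨ t ≠ 0) → ∀ F o, A.tb p q t = .inl (F, o) →
    (p, o) ∈ A.TF F → (q, o + 2 * t) ∈ A.TF F
  exT : ∀ F, ∀ x ∈ A.TF F, x.2.natAbs ≤ A.K ∧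
    ∃ q t, t.natAbs ≤ A.K ∧ (x.1 ≠ q ∨ t ≠ 0) ∧ A.tb x.1 q t = .inl (F, x.2)
  neT : ∀ F, A.TF F ≠ []
  fx1 : ∀ p q, ∀ t, t.natAbs ≤ A.K → (p ≠ q ∨ t ≠ 0) → ∀ k, A.tb p q t = .inr k → q = !p
  fx2 : ∀ k p, ∃ t : ℤ, t.natAbs ≤ A.K ∧ A.tb p (!p) t = .inr k ∧
    ∀ t' : ℤ, t'.natAbs ≤ A.K → A.tb p (!p) t' = .inr k → t' = t
  io2 : ∀ i, (A.io i false).1 ≠ (A.io i true).1

section ext

variable {f f' m : ℕ} [NeZero m] (A : Table f f')

/-- the colour of a pair in the two copies of `ZMod m` -/
def col2 (p q : Bool) (x y : ZMod m) : (Bool × ZMod m) ⊕ Fin f' :=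
  if ((y - x) * (2 : ZMod m)⁻¹).valMinAbs.natAbs ≤ A.K then
    match A.tb p q ((y - x) * (2 : ZMod m)⁻¹).valMinAbs with
    | .inl (F, o) => .inl (F, x - (o : ZMod m))
    | .inr k => .inr k
  else .inl (xor p q, (x + y) * (2 : ZMod m)⁻¹)

/-- the colouring -/
def ecol (ch : Fin f → Fin f → Fin f') :
    (Bool × ZMod m) ⊕ Fin f → (Bool × ZMod m) ⊕ Fin f → (Bool × ZMod m) ⊕ Fin f'
  | .inl (p, x), .inl (q, y) => col2 A p q x y
  | .inl (p, x), .inr i => .inl ((A.io i p).1, x - ((A.io i p).2 : ZMod m))
  | .inr i, .inl (p, x) => .inl ((A.io i p).1, x - ((A.io i p).2 : ZMod m))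
  | .inr i, .inr j => .inr (ch i j)

/-- the special sets -/
def eT (TH : Fin f' → Finset (Fin f)) :
    (Bool × ZMod m) ⊕ Fin f' → Finset ((Bool × ZMod m) ⊕ Fin f)
  | .inl (F, c) => ((A.TF F).map fun z => Sum.inl (z.1, c + (z.2 : ZMod m))).toFinset
  | .inr k => (TH k).map ⟨Sum.inr, Sum.inr_injective⟩

variable {A}

lemma vm_cast (hm : 2 * A.K < m) {t : ℤ} (ht : t.natAbs ≤ A.K) : ((t : ZMod m)).valMinAbs = t := by
  rw [ZMod.valMinAbs_spec]
  refine ⟨rfl, ?_, ?_⟩ <;> omega

lemma cast_inj (hm : 2 * A.K < m) {s t : ℤ} (hs : s.natAbs ≤ A.K) (ht : t.natAbs ≤ A.K)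
    (h : (s : ZMod m) = (t : ZMod m)) : s = t := by
  rw [← vm_cast hm hs, ← vm_cast hm ht, h]

lemma two_half (hodd : Odd m) : (2 : ZMod m) * (2 : ZMod m)⁻¹ = 1 := by
  have h : Nat.Coprime 2 m := by
    rw [Nat.coprime_comm]
    exact Nat.Coprime.symm (Nat.coprime_two_left.2 hodd)
  have := ZMod.coe_mul_inv_eq_one 2 h
  exact_mod_cast this

lemma dbl_inj (hodd : Odd m) {a b : ZMod m} (h : 2 * a = 2 * b) : a = b := by
  have h2 := two_half hodd
  calc a = (2 * (2 : ZMod m)⁻¹) * a := by rw [h2, one_mul]
    _ = (2 : ZMod m)⁻¹ * (2 * a) := by ring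
    _ = (2 : ZMod m)⁻¹ * (2 * b) := by rw [h]
    _ = (2 * (2 : ZMod m)⁻¹) * b := by ring
    _ = b := by rw [h2, one_mul]

lemma small_neg {K : ℕ} {z : ZMod m} (hK : 2 * K < m) (h : z.valMinAbs.natAbs ≤ K) :
    (-z).valMinAbs = -z.valMinAbs := by
  rw [ZMod.valMinAbs_spec]
  refine ⟨?_, ?_, ?_⟩
  · rw [Int.cast_neg, ZMod.coe_valMinAbs]
  · omega
  · omega

lemma small_neg_iff {K : ℕ} {z : ZMod m} (hK : 2 * K < m) :
    (-z).valMinAbs.natAbs ≤ K ↔ z.valMinAbs.natAbs ≤ K := by
  constructor
  · intro h
    have := small_neg hK h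
    rw [neg_neg] at this
    rw [this, Int.natAbs_neg]
    exact h
  · intro h
    rw [small_neg hK h, Int.natAbs_neg]
    exact h

lemma col2_symm (hA : A.Ok) (hodd : Odd m) (hm : 2 * A.K < m) (p q : Bool) (x y : ZMod m) :
    col2 A p q x y = col2 A q p y x := by
  have e1 : (x - y) * (2 : ZMod m)⁻¹ = -((y - x) * (2 : ZMod m)⁻¹) := by ring
  unfold col2
  rw [e1]
  by_cases h : ((y - x) * (2 : ZMod m)⁻¹).valMinAbs.natAbs ≤ A.K
  · rw [if_pos h, if_pos ((small_neg_iff hm).2 h), small_neg hm h]
    set t := ((y - x) * (2 : ZMod m)⁻¹).valMinAbs with ht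
    rcases hF : A.tb p q t with ⟨F, o⟩ | k
    · rw [hA.sym1 p q t h F o hF]
      simp only
      congr 2
      have e2 : (t : ZMod m) = (y - x) * (2 : ZMod m)⁻¹ := by rw [ht, ZMod.coe_valMinAbs]
      push_cast
      rw [e2]
      have h2 := two_half hodd
      linear_combination (y - x) * h2
    · rw [hA.sym2 p q t h k hF]
  · rw [if_neg h, if_neg (fun h' => h ((small_neg_iff hm).1 h')), Bool.xor_comm, add_comm]

/-- neighbours in a family class, pairs of the two copies -/
lemma col2_inl (hA : A.Ok) (hodd : Odd m) (hm : 2 * A.K < m) {p q F : Bool} {x y c : ZMod m}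
    (hne : (p, x) ≠ (q, y)) (h : col2 A p q x y = .inl (F, c)) :
    (∃ t s : ℤ, t.natAbs ≤ A.K ∧ s.natAbs ≤ A.K ∧ (p ≠ q ∨ t ≠ 0) ∧ A.tb p q t = .inl (F, s) ∧
      x = c + s ∧ y = c + ((s + 2 * t : ℤ) : ZMod m)) ∨
    (¬ (x - c).valMinAbs.natAbs ≤ A.K ∧ F = xor p q ∧ y = 2 * c - x) := by
  have h2 := two_half hodd
  unfold col2 at h
  by_cases hs : ((y - x) * (2 : ZMod m)⁻¹).valMinAbs.natAbs ≤ A.K
  · left
    rw [if_pos hs] at h
    set t := ((y - x) * (2 : ZMod m)⁻¹).valMinAbs with ht
    have e2 : (t : ZMod m) = (y - x) * (2 : ZMod m)⁻¹ := by rw [ht, ZMod.coe_valMinAbs]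
    have e3 : y = x + 2 * (t : ZMod m) := by
      rw [e2]; linear_combination (x - y) * h2
    have hpt : p ≠ q ∨ t ≠ 0 := by
      by_contra hcon
      rw [not_or, not_not, not_not] at hcon
      apply hne
      rw [hcon.1, e3, hcon.2]
      simp
    rcases hF : A.tb p q t with ⟨F', o⟩ | k
    · rw [hF] at h
      simp only [Sum.inl.injEq, Prod.mk.injEq] at h
      obtain ⟨rfl, h⟩ := h
      refine ⟨t, o, hs, hA.bd p q t hs hpt F' o hF, hpt, hF, ?_, ?_⟩
      · rw [← h]; ring
      · rw [e3, ← h]; push_cast; ring
    · rw [hF] at h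
      simp at h
  · right
    rw [if_neg hs] at h
    simp only [Sum.inl.injEq, Prod.mk.injEq] at h
    obtain ⟨h3, h4⟩ := h
    have e4 : y = 2 * c - x := by rw [← h4]; linear_combination (-(x + y)) * h2
    refine ⟨?_, h3.symm, e4⟩
    intro h5
    apply hs
    rw [e4]
    have e5 : (2 * c - x - x) * (2 : ZMod m)⁻¹ = -(x - c) := by linear_combination (c - x) * h2
    rw [e5]
    exact (small_neg_iff hm).2 h5

/-- value of the colour, special difference -/
lemma col2_sp (hodd : Odd m) (hm : 2 * A.K < m) {p q : Bool} {x y : ZMod m} {t : ℤ}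
    (ht : t.natAbs ≤ A.K) (hy : y = x + 2 * (t : ZMod m)) :
    col2 A p q x y = match A.tb p q t with
    | .inl (F, o) => .inl (F, x - (o : ZMod m))
    | .inr k => .inr k := by
  have h2 := two_half hodd
  have e : (y - x) * (2 : ZMod m)⁻¹ = (t : ZMod m) := by
    rw [hy]; linear_combination (t : ZMod m) * h2
  unfold col2
  rw [e, vm_cast hm ht, if_pos ht]

/-- value of the colour, the reflected point -/
lemma col2_ns (hodd : Odd m) (hm : 2 * A.K < m) {p q : Bool} {x c : ZMod m}
    (hx : ¬ (x - c).valMinAbs.natAbs ≤ A.K) :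
    col2 A p q x (2 * c - x) = .inl (xor p q, c) := by
  have h2 := two_half hodd
  have e5 : (2 * c - x - x) * (2 : ZMod m)⁻¹ = -(x - c) := by linear_combination (c - x) * h2
  unfold col2
  rw [e5, if_neg (fun h => hx ((small_neg_iff hm).1 h))]
  congr 2
  linear_combination c * h2

lemma mem_eT {TH : Fin f' → Finset (Fin f)} {F : Bool} {c : ZMod m}
    {v : (Bool × ZMod m) ⊕ Fin f} :
    v ∈ eT A TH (.inl (F, c)) ↔ ∃ z ∈ A.TF F, v = .inl (z.1, c + (z.2 : ZMod m)) := by
  unfold eT
  simp only [List.mem_toFinset, List.mem_map]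
  constructor
  · rintro ⟨z, hz, e⟩; exact ⟨z, hz, e.symm⟩
  · rintro ⟨z, hz, e⟩; exact ⟨z, hz, e.symm⟩

/-- membership of a small point -/
lemma mem_eT_small (hA : A.Ok) (hm : 2 * A.K < m) {TH : Fin f' → Finset (Fin f)} {F p : Bool}
    {c : ZMod m} {s : ℤ} (hs : s.natAbs ≤ A.K) :
    (.inl (p, c + (s : ZMod m)) : (Bool × ZMod m) ⊕ Fin f) ∈ eT A TH (.inl (F, c)) ↔
      (p, s) ∈ A.TF F := by
  rw [mem_eT]
  constructor
  · rintro ⟨z, hz, e⟩
    simp only [Sum.inl.injEq, Prod.mk.injEq, add_right_inj] at e
    have h1 := cast_inj hm hs (hA.exT F z hz).1 e.2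
    rw [e.1, h1]
    exact hz
  · intro h
    exact ⟨(p, s), h, rfl⟩

theorem ext_good (hA : A.Ok) (hodd : Odd m) (hm : 2 * A.K < m) {ch : Fin f → Fin f → Fin f'}
    {TH : Fin f' → Finset (Fin f)} (hG : Good ch TH) :
    Good (ecol (m := m) A ch) (eT A TH) := by
  have h2 := two_half hodd
  have hsymm : ∀ v w, ecol (m := m) A ch v w = ecol A ch w v := by
    rintro (⟨p, x⟩ | i) (⟨q, y⟩ | j)
    · exact col2_symm hA hodd hm p q x y
    · rfl
    · rfl
    · simp only [ecol, hG.symm i j]
  refine ⟨hsymm, ?_, ?_, ?_, ?_⟩
  · -- nonempty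
    rintro (⟨F, c⟩ | k)
    · obtain ⟨z, hz⟩ := List.exists_mem_of_ne_nil _ (hA.neT F)
      exact ⟨_, mem_eT.2 ⟨z, hz, rfl⟩⟩
    · obtain ⟨i, hi⟩ := hG.ne k
      exact ⟨.inr i, by unfold eT; simpa using hi⟩
  · -- a neighbour in `T`
    rintro (⟨F, c⟩ | k) v hv
    · obtain ⟨z, hz, rfl⟩ := mem_eT.1 hv
      obtain ⟨hz1, q, t, ht, hqt, e⟩ := hA.exT F z hz
      refine ⟨.inl (q, c + (z.2 : ZMod m) + 2 * (t : ZMod m)), ?_, ?_⟩
      · intro h
        simp only [Sum.inl.injEq, Prod.mk.injEq] at h
        rcases hqt with h' | h'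
        · exact h' h.1.symm
        · apply h'
          have : (t : ZMod m) = ((0 : ℤ) : ZMod m) := by
            apply dbl_inj hodd
            push_cast
            linear_combination h.2
          exact cast_inj hm ht (by simp) this
      · simp only [ecol]
        rw [col2_sp hodd hm ht rfl, e]
        simp only
        congr 2
        ring
    · unfold eT at hv
      simp only [mem_map, Function.Embedding.coeFn_mk] at hv
      obtain ⟨i, hi, rfl⟩ := hv
      obtain ⟨j, hj, e⟩ := hG.nbT k i hi
      exact ⟨.inr j, fun h => hj (Sum.inr_injective h), by simp only [ecol, e]⟩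
  · -- closed
    rintro (⟨F, c⟩ | k) v hv w hwv e
    · obtain ⟨z, hz, rfl⟩ := mem_eT.1 hv
      have hzs := (hA.exT F z hz).1
      rcases w with ⟨q, y⟩ | i
      · simp only [ecol] at e
        have hne : (z.1, c + (z.2 : ZMod m)) ≠ (q, y) := fun h => hwv (by rw [h])
        rcases col2_inl hA hodd hm hne e with ⟨t, s, ht, hs, hpt, htb, hx, hy⟩ | ⟨h1, -, -⟩
        · have h3 : z.2 = s := by
            apply cast_inj hm hzs hs
            linear_combination hx
          rw [← h3] at htb hy
          have h4 := hA.clT z.1 q t ht hpt F z.2 htb hz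
          rw [hy]
          exact mem_eT.2 ⟨_, h4, rfl⟩
        · exfalso
          apply h1
          rw [show c + (z.2 : ZMod m) - c = (z.2 : ZMod m) by ring, vm_cast hm hzs]
          exact hzs
      · exfalso
        simp only [ecol, Sum.inl.injEq, Prod.mk.injEq] at e
        obtain ⟨e1, e2⟩ := e
        obtain ⟨h3, h4, h5⟩ := hA.pario i z.1
        have h6 : z.2 = (A.io i z.1).2 := by
          apply cast_inj hm hzs h5
          linear_combination e2
        apply h4
        rw [e1, ← h6]
        exact hz
    · unfold eT at hv ⊢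
      simp only [mem_map, Function.Embedding.coeFn_mk] at hv ⊢
      obtain ⟨i, hi, rfl⟩ := hv
      rcases w with ⟨q, y⟩ | j
      · simp [ecol] at e
      · simp only [ecol, Sum.inr.injEq] at e
        exact ⟨j, hG.cl k i hi j (fun h => hwv (by rw [h])) e, rfl⟩
  · -- partners
    rintro (⟨F, c⟩ | k) v hv
    · rcases v with ⟨p, x⟩ | i
      · by_cases hx : (x - c).valMinAbs.natAbs ≤ A.K
        · -- small point
          set s := (x - c).valMinAbs with hs
          have hxs : x = c + (s : ZMod m) := by rw [hs, ZMod.coe_valMinAbs]; ring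
          rw [hxs] at hv ⊢
          rw [mem_eT_small hA hm hx] at hv
          -- all neighbours are given by `nb`
          have hall : ∀ w : (Bool × ZMod m) ⊕ Fin f, w ≠ .inl (p, c + (s : ZMod m)) →
              ecol A ch (.inl (p, c + (s : ZMod m))) w = .inl (F, c) →
              (∃ q t, t.natAbs ≤ A.K ∧ A.nb F p s = .inl (q, s + 2 * t) ∧
                w = .inl (q, c + ((s + 2 * t : ℤ) : ZMod m))) ∨
              ∃ i, A.nb F p s = .inr i ∧ w = .inr i := by
            intro w hw e
            rcases w with ⟨q, y⟩ | i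
            · left
              simp only [ecol] at e
              have hne : (p, c + (s : ZMod m)) ≠ (q, y) := fun h => hw (by rw [h])
              rcases col2_inl hA hodd hm hne e with ⟨t, s', ht, hs', hpt, htb, hx', hy⟩ | ⟨h1, -, -⟩
              · have h3 : s = s' := by
                  apply cast_inj hm hx hs'
                  linear_combination hx'
                rw [← h3] at htb hy
                exact ⟨q, t, ht, (hA.part p q t ht hpt F s htb hv).1, by rw [hy]⟩
              · exfalso
                apply h1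
                rw [show c + (s : ZMod m) - c = (s : ZMod m) by ring, vm_cast hm hx]
                exact hx
            · right
              simp only [ecol, Sum.inl.injEq, Prod.mk.injEq] at e
              obtain ⟨e1, e2⟩ := e
              obtain ⟨h3, h4, h5⟩ := hA.pario i p
              have h6 : s = (A.io i p).2 := by
                apply cast_inj hm hx h5
                linear_combination e2
              refine ⟨i, ?_, rfl⟩
              rw [← e1, h6]
              exact h3
          rcases hA.ex F p s hx hv with ⟨q, t, ht, hpt, htb⟩ | ⟨i, hi⟩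
          · have hnb := hA.part p q t ht hpt F s htb hv
            have hrev := hA.sym1 p q t ht F s htb
            have hbd : (s + 2 * t).natAbs ≤ A.K := by
              apply hA.bd q p (-t) (by rw [Int.natAbs_neg]; exact ht) _ F _ hrev
              rcases hpt with h | h
              · exact Or.inl h.symm
              · right; omega
            refine ⟨.inl (q, c + ((s + 2 * t : ℤ) : ZMod m)), ?_, ?_, ?_, ?_⟩
            · intro h
              simp only [Sum.inl.injEq, Prod.mk.injEq] at h
              rcases hpt with h' | h'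
              · exact h' h.1.symm
              · apply h'
                have : (t : ZMod m) = ((0 : ℤ) : ZMod m) := by
                  apply dbl_inj hodd
                  have h3 := h.2
                  push_cast at h3 ⊢
                  linear_combination h3
                exact cast_inj hm ht (by simp) this
            · rw [mem_eT_small hA hm hbd]
              exact hnb.2
            · simp only [ecol]
              rw [col2_sp hodd hm ht (by push_cast; ring), htb]
              simp only
              congr 2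
              ring
            · intro w hw e
              rcases hall w hw e with ⟨q', t', -, h3, h4⟩ | ⟨i, h3, -⟩
              · rw [h4]
                rw [hnb.1] at h3
                simp only [Sum.inl.injEq, Prod.mk.injEq] at h3
                rw [h3.1, h3.2]
              · rw [hnb.1] at h3
                simp at h3
          · obtain ⟨h3, h4, h5⟩ := hA.pario i p
            rw [hi] at h3
            refine ⟨.inr i, by simp, ?_, ?_, ?_⟩
            · intro h
              obtain ⟨z, -, hz⟩ := mem_eT.1 h
              simp at hz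
            · simp only [ecol, hi]
              congr 2
              ring
            · intro w hw e
              rcases hall w hw e with ⟨q', t', -, h6, h7⟩ | ⟨j, h6, h7⟩
              · rw [h3] at h6
                simp at h6
              · rw [h3] at h6
                simp only [Sum.inr.injEq] at h6
                rw [h7, h6]
        · -- large point
          refine ⟨.inl (xor p F, 2 * c - x), ?_, ?_, ?_, ?_⟩
          · intro h
            simp only [Sum.inl.injEq, Prod.mk.injEq] at h
            apply hx
            have : x - c = 0 := by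
              apply dbl_inj hodd
              linear_combination -h.2
            rw [this]
            simp
          · intro h
            obtain ⟨z, hz, e⟩ := mem_eT.1 h
            simp only [Sum.inl.injEq, Prod.mk.injEq] at e
            have hzs := (hA.exT F z hz).1
            apply hx
            rw [← small_neg_iff hm, show -(x - c) = (z.2 : ZMod m) by linear_combination e.2,
              vm_cast hm hzs]
            exact hzs
          · simp only [ecol]
            rw [col2_ns hodd hm hx]
            congr 2
            cases p <;> cases F <;> rfl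
          · intro w hw e
            rcases w with ⟨q, y⟩ | i
            · simp only [ecol] at e
              have hne : (p, x) ≠ (q, y) := fun h => hw (by rw [h])
              rcases col2_inl hA hodd hm hne e with ⟨t, s, ht, hs, -, -, hx', -⟩ | ⟨-, h3, h4⟩
              · exfalso
                apply hx
                rw [hx', show c + (s : ZMod m) - c = (s : ZMod m) by ring, vm_cast hm hs]
                exact hs
              · rw [h4, h3]
                congr 2
                cases p <;> cases q <;> rfl
            · exfalso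
              simp only [ecol, Sum.inl.injEq, Prod.mk.injEq] at e
              obtain ⟨h3, h4, h5⟩ := hA.pario i p
              apply hx
              rw [show x - c = ((A.io i p).2 : ZMod m) by linear_combination e.2, vm_cast hm h5]
              exact h5
      · -- a fixed vertex
        have hp : ∃ p, (A.io i p).1 = F := by
          have := hA.io2 i
          by_cases h : (A.io i false).1 = F
          · exact ⟨false, h⟩
          · refine ⟨true, ?_⟩
            revert this h
            cases (A.io i false).1 <;> cases (A.io i true).1 <;> cases F <;> simp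
        obtain ⟨p, hp⟩ := hp
        obtain ⟨h3, h4, h5⟩ := hA.pario i p
        refine ⟨.inl (p, c + ((A.io i p).2 : ZMod m)), by simp, ?_, ?_, ?_⟩
        · rw [mem_eT_small hA hm h5]
          rw [hp] at h4
          exact h4
        · simp only [ecol, hp]
          congr 2
          ring
        · intro w hw e
          rcases w with ⟨q, y⟩ | j
          · simp only [ecol, Sum.inl.injEq, Prod.mk.injEq] at e
            have hqp : q = p := by
              by_contra hqp
              have hio := hA.io2 i
              apply hio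
              have e1 := e.1
              cases p <;> cases q <;> simp_all
            subst hqp
            congr 2
            linear_combination e.2
          · simp [ecol] at e
    · rcases v with ⟨p, x⟩ | i
      · obtain ⟨t, ht, htb, huni⟩ := hA.fx2 k p
        refine ⟨.inl (!p, x + 2 * (t : ZMod m)), ?_, ?_, ?_, ?_⟩
        · intro h
          simp only [Sum.inl.injEq, Prod.mk.injEq] at h
          have := h.1
          cases p <;> simp at this
        · unfold eT
          simp
        · simp only [ecol]
          rw [col2_sp hodd hm ht rfl, htb]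
        · intro w hw e
          rcases w with ⟨q, y⟩ | j
          · simp only [ecol] at e
            unfold col2 at e
            by_cases hs : ((y - x) * (2 : ZMod m)⁻¹).valMinAbs.natAbs ≤ A.K
            · rw [if_pos hs] at e
              set t' := ((y - x) * (2 : ZMod m)⁻¹).valMinAbs with ht'
              have e2 : (t' : ZMod m) = (y - x) * (2 : ZMod m)⁻¹ := by
                rw [ht', ZMod.coe_valMinAbs]
              have e3 : y = x + 2 * (t' : ZMod m) := by
                rw [e2]; linear_combination (x - y) * h2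
              have hpt : p ≠ q ∨ t' ≠ 0 := by
                by_contra hcon
                rw [not_or, not_not, not_not] at hcon
                apply hw
                rw [hcon.1, e3, hcon.2]
                simp
              rcases hF : A.tb p q t' with ⟨F', o⟩ | k'
              · rw [hF] at e
                simp at e
              · rw [hF] at e
                simp only [Sum.inr.injEq] at e
                subst e
                have hq := hA.fx1 p q t' hs hpt k' hF
                subst hq
                have := huni t' hs hF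
                rw [e3, this]
            · rw [if_neg hs] at e
              simp at e
          · simp [ecol] at e
      · have hi : i ∉ TH k := by
          intro h
          apply hv
          unfold eT
          simpa using h
        obtain ⟨j, hj, hjT, e, huni⟩ := hG.mt k i hi
        refine ⟨.inr j, fun h => hj (Sum.inr_injective h), ?_, ?_, ?_⟩
        · unfold eT
          simpa using hjT
        · simp only [ecol, e]
        · intro w hw e'
          rcases w with ⟨q, y⟩ | l
          · simp [ecol] at e'
          · simp only [ecol, Sum.inr.injEq] at e'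
            rw [huni l (fun h => hw (by rw [h])) e']

end ext

end Pool.Agent.Work.MP_1ce445_n3odd
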