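import Pool.Agent.Work.MP_1ce445_co_56.Odd

/-!
MP_1ce445_co, bounded `n - k`, `n` odd (helper83). Colourings of the pairs of vertices in which every
colour class is a perfect matching outside a small set `T c`, and closed on `T c`.
-/

set_option autoImplicit false

namespace Pool.Agent.Work.MP_1ce445_n3odd

open Finset Pool.Agent.Work.MP_1ce445_co_56

/-- Every colour class is a perfect matching outside `T c` and has no edge leaving `T c`. -/
structure Good {V C : Type} (col : V → V → C) (T : C → Finset V) : Prop where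
  symm : ∀ v w, col v w = col w v
  ne : ∀ c, (T c).Nonempty
  nbT : ∀ c, ∀ v ∈ T c, ∃ w, w ≠ v ∧ col v w = c
  cl : ∀ c, ∀ v ∈ T c, ∀ w, w ≠ v → col v w = c → w ∈ T c
  mt : ∀ c v, v ∉ T c → ∃ w, w ≠ v ∧ w ∉ T c ∧ col v w = c ∧ ∀ x, x ≠ v → col v x = c → x = w

/-- the colour class -/
def gr {V C : Type} (col : V → V → C) (hs : ∀ v w, col v w = col w v) (c : C) : SimpleGraph V where
  Adj x y := x ≠ y ∧ col x y = c
  symm := ⟨fun x y h => ⟨h.1.symm, by rw [hs]; exact h.2⟩⟩
  loopless := ⟨fun _ h => h.1 rfl⟩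

variable {V C : Type} {col : V → V → C} {T : C → Finset V}

lemma Good.minDeg (h : Good col T) (c : C) (v : V) : ∃ w, (gr col h.symm c).Adj v w := by
  classical
  by_cases hv : v ∈ T c
  · obtain ⟨w, hw, e⟩ := h.nbT c v hv
    exact ⟨w, hw.symm, e⟩
  · obtain ⟨w, hw, -, e, -⟩ := h.mt c v hv
    exact ⟨w, hw.symm, e⟩

lemma Good.fact (h : Good col T) : IsFactorization (gr col h.symm) := by
  apply IsFactorization.of_adj
  · rintro i j x y ⟨-, h1⟩ ⟨-, h2⟩
    rw [← h1, h2]
  · intro x y hxy
    exact ⟨col x y, hxy, rfl⟩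
  · exact h.minDeg

lemma Good.gamma [Fintype V] [DecidableEq V] (h : Good col T) (c : C) :
    Fintype.card V + 2 ≤ gammaT (gr col h.symm c) + (T c).card := by
  obtain ⟨S, hS, hc⟩ := exists_tds (h.minDeg c)
  rw [← hc]
  have h1 : univ \ T c ⊆ S := by
    intro v hv
    rw [mem_sdiff] at hv
    obtain ⟨w, hw, hwT, e, -⟩ := h.mt c v hv.2
    obtain ⟨x, hx, hwx, e2⟩ := hS w
    obtain ⟨u, -, -, -, hu⟩ := h.mt c w hwT
    have e3 := hu v hw.symm (by rw [h.symm]; exact e)
    have e4 := hu x hwx.symm e2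
    rw [e3, ← e4]
    exact hx
  have h2 : 2 ≤ (S ∩ T c).card := by
    obtain ⟨v, hv⟩ := h.ne c
    obtain ⟨x, hx, hvx, e⟩ := hS v
    have hxT := h.cl c v hv x hvx.symm e
    obtain ⟨y, hy, hxy, e'⟩ := hS x
    have hyT := h.cl c x hxT y hxy.symm e'
    have : ({x, y} : Finset V) ⊆ S ∩ T c := by
      intro z hz
      rw [mem_insert, mem_singleton] at hz
      rcases hz with rfl | rfl
      · exact mem_inter.2 ⟨hx, hxT⟩
      · exact mem_inter.2 ⟨hy, hyT⟩
    have h3 := card_le_card this
    rwa [card_pair hxy] at h3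
  have h3 : (univ \ T c) ∪ (S ∩ T c) ⊆ S := union_subset h1 inter_subset_left
  have h4 := card_le_card h3
  have h5 : Disjoint (univ \ T c) (S ∩ T c) := by
    rw [disjoint_left]
    intro z hz hz'
    exact (mem_sdiff.1 hz).2 (mem_inter.1 hz').2
  rw [card_union_of_disjoint h5] at h4
  have h6 : (univ \ T c).card + (T c).card = Fintype.card V := by
    rw [← card_univ, ← card_sdiff_add_card_eq_card (subset_univ (T c))]
  omega

/-- the lower bound for `P` -/
theorem Good.bound [Fintype V] [DecidableEq V] [Fintype C] (h : Good col T) {n k : ℕ}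
    (hn : Fintype.card V = n) (hk : Fintype.card C = k) :
    ∏ c : C, (n + 2 - (T c).card) ≤ P n k := by
  refine le_trans ?_ (le_P hn hk h.fact)
  apply Finset.prod_le_prod'
  intro c _
  have := h.gamma c
  omega

end Pool.Agent.Work.MP_1ce445_n3odd
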