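import Pool.Agent.Work.MP_1ce445_n3odd.Chk

/-!
Lower bounds for `P` from the cardinalities of the special sets (helper83).
-/

set_option autoImplicit false

namespace Pool.Agent.Work.MP_1ce445_n3odd

open Finset Pool.Agent.Work.MP_1ce445_co_56

lemma mb_iff (l : List ℕ) (x : ℕ) : mb l x = true ↔ x ∈ l := by
  induction l with
  | nil => simp [mb]
  | cons a l ih =>
    unfold mb
    rw [Bool.or_eq_true, beq_iff, ih, List.mem_cons]
    constructor
    · rintro (h | h)
      · exact Or.inl h.symm
      · exact Or.inr h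
    · rintro (h | h)
      · exact Or.inl h.symm
      · exact Or.inr h

lemma card_tT (n k : ℕ) (Ts : List (List ℕ)) (c : Fin k) :
    (tT n k Ts c).card ≤ (Ts.getD c []).length := by
  have h : (tT n k Ts c).image Fin.val ⊆ (Ts.getD c []).toFinset := by
    intro x hx
    rw [mem_image] at hx
    obtain ⟨v, hv, rfl⟩ := hx
    unfold tT at hv
    rw [mem_filter] at hv
    rw [List.mem_toFinset]
    exact (mb_iff _ _).1 hv.2
  have h2 := card_le_card h
  rw [card_image_of_injective _ Fin.val_injective] at h2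
  exact h2.trans (List.toFinset_card_le _)

lemma card_eT_inl {f f' m : ℕ} (A : Table f f') (TH : Fin f' → Finset (Fin f))
    (c : Bool × ZMod m) : (eT (m := m) A TH (.inl c)).card ≤ (A.TF c.1).length := by
  obtain ⟨F, c⟩ := c
  unfold eT
  refine (List.toFinset_card_le _).trans ?_
  rw [List.length_map]

lemma card_eT_inr {f f' m : ℕ} (A : Table f f') (TH : Fin f' → Finset (Fin f))
    (k : Fin f') : (eT (m := m) A TH (.inr k)).card = (TH k).card := by
  unfold eT
  rw [card_map]

section

variable {V C : Type} [Fintype V] [DecidableEq V] [Fintype C] {col : V → V → C} {T : C → Finset V}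

/-- all special sets have three elements -/
theorem low3 (h : Good col T) (h3 : ∀ c, (T c).card ≤ 3) {n k : ℕ} (hn : Fintype.card V = n)
    (hk : Fintype.card C = k) : (n - 1) ^ k ≤ P n k := by
  refine le_trans ?_ (h.bound hn hk)
  have : (n - 1) ^ k = ∏ _c : C, (n - 1) := by
    rw [prod_const, card_univ, hk]
  rw [this]
  apply Finset.prod_le_prod'
  intro c _
  have := h3 c
  omega

/-- one special set has five elements, the others have three -/
theorem low5 (h : Good col T) (c0 : C) (h0 : (T c0).card ≤ 5) (h3 : ∀ c, c ≠ c0 → (T c).card ≤ 3)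
    {n k : ℕ} (hn : Fintype.card V = n) (hk : Fintype.card C = k) :
    (n - 1) ^ (k - 1) * (n - 3) ≤ P n k := by
  classical
  refine le_trans ?_ (h.bound hn hk)
  rw [← Finset.prod_erase_mul univ _ (mem_univ c0)]
  apply Nat.mul_le_mul
  · have : (n - 1) ^ (k - 1) = ∏ _c ∈ univ.erase c0, (n - 1) := by
      rw [prod_const, card_erase_of_mem (mem_univ c0), card_univ, hk]
    rw [this]
    apply Finset.prod_le_prod'
    intro c hc
    have := h3 c (ne_of_mem_erase hc)
    omega
  · omega

end

/-- from a table to all odd `m`, three elements -/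
theorem ext3 {f f' m : ℕ} {A : Table f f'} (hA : A.Ok) (hodd : Odd m) (hm : 2 * A.K < m)
    (hT : ∀ F, (A.TF F).length ≤ 3) {ch : Fin f → Fin f → Fin f'} {TH : Fin f' → Finset (Fin f)}
    (hG : Good ch TH) (hH : ∀ k, (TH k).card ≤ 3) :
    (2 * m + f - 1) ^ (2 * m + f') ≤ P (2 * m + f) (2 * m + f') := by
  have : NeZero m := ⟨by omega⟩
  refine low3 (ext_good hA hodd hm hG) ?_ ?_ ?_
  · rintro (c | k)
    · exact (card_eT_inl A TH c).trans (hT _)
    · rw [card_eT_inr]
      exact hH k
  · simp [ZMod.card]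
  · simp [ZMod.card]

/-- from a table to all odd `m`, one special set with five elements -/
theorem ext5 {f f' m : ℕ} {A : Table f f'} (hA : A.Ok) (hodd : Odd m) (hm : 2 * A.K < m)
    (hT : ∀ F, (A.TF F).length ≤ 3) {ch : Fin f → Fin f → Fin f'} {TH : Fin f' → Finset (Fin f)}
    (hG : Good ch TH) (k0 : Fin f') (h0 : (TH k0).card ≤ 5)
    (hH : ∀ k, k ≠ k0 → (TH k).card ≤ 3) :
    (2 * m + f - 1) ^ (2 * m + f' - 1) * (2 * m + f - 3) ≤ P (2 * m + f) (2 * m + f') := by
  have : NeZero m := ⟨by omega⟩
  refine low5 (ext_good hA hodd hm hG) (.inr k0) ?_ ?_ ?_ ?_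
  · rw [card_eT_inr]
    exact h0
  · rintro (c | k) hc
    · exact (card_eT_inl A TH c).trans (hT _)
    · rw [card_eT_inr]
      exact hH k (fun e => hc (by rw [e]))
  · simp [ZMod.card]
  · simp [ZMod.card]

/-- a small case, three elements -/
theorem small3 {n k : ℕ} [NeZero k] {M Q Ts : List (List ℕ)} (h : good n k M Q Ts = true)
    (hT : ((List.range k).all fun c => Nat.ble (Ts.getD c []).length 3) = true) :
    Good (tcol n k M) (tT n k Ts) ∧ (∀ c, (tT n k Ts c).card ≤ 3) ∧ (n - 1) ^ k ≤ P n k := by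
  have h1 := good_of_check h
  have h2 : ∀ c, (tT n k Ts c).card ≤ 3 := by
    intro c
    rw [List.all_eq_true] at hT
    have := hT c (List.mem_range.2 c.2)
    rw [Nat.ble_eq] at this
    exact (card_tT n k Ts c).trans this
  exact ⟨h1, h2, low3 h1 h2 (by simp) (by simp)⟩

/-- a small case, the first special set has five elements -/
theorem small5 {n k : ℕ} [NeZero k] {M Q Ts : List (List ℕ)} (h : good n k M Q Ts = true)
    (h0 : Nat.ble (Ts.getD 0 []).length 5 = true)
    (hT : ((List.range k).all fun c => Nat.beq c 0 || Nat.ble (Ts.getD c []).length 3) = true) :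
    Good (tcol n k M) (tT n k Ts) ∧ (tT n k Ts 0).card ≤ 5 ∧
      (∀ c, c ≠ 0 → (tT n k Ts c).card ≤ 3) ∧ (n - 1) ^ (k - 1) * (n - 3) ≤ P n k := by
  have h1 := good_of_check h
  have h2 : (tT n k Ts 0).card ≤ 5 := by
    rw [Nat.ble_eq] at h0
    have := card_tT n k Ts 0
    rw [Fin.val_zero] at this
    exact this.trans h0
  have h3 : ∀ c, c ≠ 0 → (tT n k Ts c).card ≤ 3 := by
    intro c hc
    rw [List.all_eq_true] at hT
    have := hT c (List.mem_range.2 c.2)
    rw [Bool.or_eq_true, beq_iff, Nat.ble_eq] at this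
    refine (card_tT n k Ts c).trans (this.resolve_left fun e => hc ?_)
    apply Fin.ext
    rw [e, Fin.val_zero]
  exact ⟨h1, h2, h3, low5 h1 0 h2 h3 (by simp) (by simp)⟩

end Pool.Agent.Work.MP_1ce445_n3odd
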