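import Pool.Agent.Work.MP_1ce445_n3odd.Tables
import Pool.Agent.Work.MP_1ce445_n3odd.Small3
import Pool.Agent.Work.MP_1ce445_n3odd.Small5

/-!
The exact value of `P n (n - 3)` for odd `n ≥ 9`, and the lower bound for `P n (n - 4)`, odd `n ≥ 13`
(helper83).
-/

set_option autoImplicit false

namespace Pool.Agent.Work.MP_1ce445_n3odd

open Finset Pool.Agent.Work.MP_1ce445_co_56

/-- the upper bound for odd `n` -/
theorem odd_upper {n k : ℕ} (hn : Odd n) : P n k ≤ (n - 1) ^ k := by
  apply P_le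
  intro G hG
  calc ∏ j, gammaT (G j) ≤ ∏ _j : Fin k, (n - 1) := by
        apply Finset.prod_le_prod'
        intro j _
        have := gammaT_add_one_le (hG.minDeg j) (by simpa using hn)
        rw [Fintype.card_fin] at this
        omega
    _ = (n - 1) ^ k := by simp

/-- the residue `3` modulo `4` -/
theorem low_A9 (m : ℕ) (hodd : Odd m) (hm : 9 ≤ m) :
    (2 * m + 9 - 1) ^ (2 * m + 6) ≤ P (2 * m + 9) (2 * m + 6) := by
  obtain ⟨h1, h2, -⟩ := small3 a9_good (by decide +kernel)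
  exact ext3 A9_ok hodd (show 2 * 4 < m by omega) (by decide +kernel) h1 h2

/-- the residue `1` modulo `4` -/
theorem low_A11 (m : ℕ) (hodd : Odd m) (hm : 11 ≤ m) :
    (2 * m + 11 - 1) ^ (2 * m + 8) ≤ P (2 * m + 11) (2 * m + 8) := by
  obtain ⟨h1, h2, -⟩ := small3 a11_good (by decide +kernel)
  exact ext3 A11_ok hodd (show 2 * 5 < m by omega) (by decide +kernel) h1 h2

theorem low_odd3 {n : ℕ} (h9 : 9 ≤ n) (hn : Odd n) : (n - 1) ^ (n - 3) ≤ P n (n - 3) := by
  obtain ⟨a, ha⟩ := hn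
  rcases Nat.even_or_odd a with ⟨b, hb⟩ | ⟨b, hb⟩
  · -- `n = 4b + 1`
    by_cases h : 33 ≤ n
    · obtain ⟨m, hm⟩ : ∃ m, n = 2 * m + 11 := ⟨2 * b - 5, by omega⟩
      have h1 := low_A11 m ⟨b - 3, by omega⟩ (by omega)
      rw [hm]
      exact h1
    · have : n = 9 ∨ n = 13 ∨ n = 17 ∨ n = 21 ∨ n = 25 ∨ n = 29 := by omega
      rcases this with rfl | rfl | rfl | rfl | rfl | rfl
      · exact (small3 a9_good (by decide +kernel)).2.2
      · exact (small3 a13_good (by decide +kernel)).2.2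
      · exact (small3 a17_good (by decide +kernel)).2.2
      · exact (small3 a21_good (by decide +kernel)).2.2
      · exact (small3 a25_good (by decide +kernel)).2.2
      · exact (small3 a29_good (by decide +kernel)).2.2
  · -- `n = 4b + 3`
    by_cases h : 27 ≤ n
    · obtain ⟨m, hm⟩ : ∃ m, n = 2 * m + 9 := ⟨2 * b - 3, by omega⟩
      have h1 := low_A9 m ⟨b - 2, by omega⟩ (by omega)
      rw [hm]
      exact h1
    · have : n = 11 ∨ n = 15 ∨ n = 19 ∨ n = 23 := by omega
      rcases this with rfl | rfl | rfl | rfl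
      · exact (small3 a11_good (by decide +kernel)).2.2
      · exact (small3 a15_good (by decide +kernel)).2.2
      · exact (small3 a19_good (by decide +kernel)).2.2
      · exact (small3 a23_good (by decide +kernel)).2.2

/-- For every odd `n ≥ 9` we have `P n (n - 3) = (n - 1) ^ (n - 3)`. -/
theorem odd3 {n : ℕ} (h9 : 9 ≤ n) (hn : Odd n) : P n (n - 3) = (n - 1) ^ (n - 3) :=
  le_antisymm (odd_upper hn) (low_odd3 h9 hn)

/-- the residue `3` modulo `4` -/
theorem low_B5 (m : ℕ) (hodd : Odd m) (hm : 5 ≤ m) :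
    (2 * m + 5 - 1) ^ (2 * m + 1 - 1) * (2 * m + 5 - 3) ≤ P (2 * m + 5) (2 * m + 1) := by
  obtain ⟨h1, h2, h3, -⟩ := small5 b5_good (by decide +kernel) (by decide +kernel)
  exact ext5 B5_ok hodd (show 2 * 2 < m by omega) (by decide +kernel) h1 0 h2 h3

/-- the residue `1` modulo `4` -/
theorem low_B15 (m : ℕ) (hodd : Odd m) (hm : 11 ≤ m) :
    (2 * m + 15 - 1) ^ (2 * m + 11 - 1) * (2 * m + 15 - 3) ≤ P (2 * m + 15) (2 * m + 11) := by
  obtain ⟨h1, h2, h3, -⟩ := small5 b15_good (by decide +kernel) (by decide +kernel)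
  exact ext5 B15_ok hodd (show 2 * 5 < m by omega) (by decide +kernel) h1 0 h2 h3

theorem low_odd4 {n : ℕ} (h13 : 13 ≤ n) (hn : Odd n) :
    (n - 1) ^ (n - 5) * (n - 3) ≤ P n (n - 4) := by
  obtain ⟨a, ha⟩ := hn
  rcases Nat.even_or_odd a with ⟨b, hb⟩ | ⟨b, hb⟩
  · -- `n = 4b + 1`
    by_cases h : 37 ≤ n
    · obtain ⟨m, hm⟩ : ∃ m, n = 2 * m + 15 := ⟨2 * b - 7, by omega⟩
      have h1 := low_B15 m ⟨b - 4, by omega⟩ (by omega)
      rw [hm]
      exact h1
    · have : n = 13 ∨ n = 17 ∨ n = 21 ∨ n = 25 ∨ n = 29 ∨ n = 33 := by omega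
      rcases this with rfl | rfl | rfl | rfl | rfl | rfl
      · exact (small5 b13_good (by decide +kernel) (by decide +kernel)).2.2.2
      · exact (small5 b17_good (by decide +kernel) (by decide +kernel)).2.2.2
      · exact (small5 b21_good (by decide +kernel) (by decide +kernel)).2.2.2
      · exact (small5 b25_good (by decide +kernel) (by decide +kernel)).2.2.2
      · exact (small5 b29_good (by decide +kernel) (by decide +kernel)).2.2.2
      · exact (small5 b33_good (by decide +kernel) (by decide +kernel)).2.2.2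
  · -- `n = 4b + 3`
    obtain ⟨m, hm⟩ : ∃ m, n = 2 * m + 5 := ⟨2 * b - 1, by omega⟩
    have h1 := low_B5 m ⟨b - 1, by omega⟩ (by omega)
    rw [hm]
    exact h1

end Pool.Agent.Work.MP_1ce445_n3odd
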