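import Pool.Agent.Work.MP_1ce445_n3odd.Good

/-!
Colourings given by a table, and the program which checks them (helper83).
-/

set_option autoImplicit false

namespace Pool.Agent.Work.MP_1ce445_n3odd

open Finset

/-- table lookup -/
def lk (M : List (List ℕ)) (i j : ℕ) : ℕ := (M.getD i []).getD j 0

/-- membership in a list of numbers -/
def mb : List ℕ → ℕ → Bool
  | [], _ => false
  | a :: l, x => Nat.beq a x || mb l x

/-- the check of a table: `M` colours, `P` partners (row = colour), `Ts` the special sets -/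
def good (n k : ℕ) (M P Ts : List (List ℕ)) : Bool :=
  ((List.range n).all fun v => (List.range n).all fun w =>
    Nat.beq v w || (Nat.blt (lk M v w) k && Nat.beq (lk M w v) (lk M v w) &&
      (bif mb (Ts.getD (lk M v w) []) v then mb (Ts.getD (lk M v w) []) w
        else Nat.beq (lk P (lk M v w) v) w))) &&
  (List.range k).all fun c => (List.range n).any (fun v => mb (Ts.getD c []) v) &&
    (List.range n).all fun v =>
      bif mb (Ts.getD c []) v then
        (List.range n).any fun w => !(Nat.beq w v) && Nat.beq (lk M v w) c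
      else Nat.blt (lk P c v) n && !(Nat.beq (lk P c v) v) &&
        !(mb (Ts.getD c []) (lk P c v)) && Nat.beq (lk M v (lk P c v)) c

/-- the colouring of a table -/
def tcol (n k : ℕ) [NeZero k] (M : List (List ℕ)) (v w : Fin n) : Fin k :=
  if v = w then 0 else Fin.ofNat k (lk M v w)

/-- the special sets of a table -/
def tT (n k : ℕ) (Ts : List (List ℕ)) (c : Fin k) : Finset (Fin n) :=
  univ.filter fun v => mb (Ts.getD c []) v = true

lemma beq_iff (a b : ℕ) : Nat.beq a b = true ↔ a = b := by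
  constructor
  · exact Nat.eq_of_beq_eq_true
  · rintro rfl
    exact Nat.beq_refl a

lemma beq_false_iff (a b : ℕ) : Nat.beq a b = false ↔ a ≠ b := by
  rw [← Bool.not_eq_true, beq_iff]

lemma blt_iff (a b : ℕ) : Nat.blt a b = true ↔ a < b := by
  unfold Nat.blt
  rw [Nat.ble_eq]
  exact Iff.rfl

theorem good_of_check {n k : ℕ} [NeZero k] {M P Ts : List (List ℕ)} (h : good n k M P Ts = true) :
    Good (tcol n k M) (tT n k Ts) := by
  unfold good at h
  rw [Bool.and_eq_true] at h
  obtain ⟨h1, h2⟩ := h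
  rw [List.all_eq_true] at h1 h2
  -- pairs
  have p1 : ∀ v w : ℕ, v < n → w < n → v ≠ w → lk M v w < k ∧ lk M w v = lk M v w ∧
      (mb (Ts.getD (lk M v w) []) v = true → mb (Ts.getD (lk M v w) []) w = true) ∧
      (mb (Ts.getD (lk M v w) []) v = false → lk P (lk M v w) v = w) := by
    intro v w hv hw hvw
    have h3 := h1 v (List.mem_range.2 hv)
    rw [List.all_eq_true] at h3
    have h4 := h3 w (List.mem_range.2 hw)
    rw [Bool.or_eq_true, beq_iff] at h4
    have h5 := h4.resolve_left hvw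
    rw [Bool.and_eq_true, Bool.and_eq_true, blt_iff, beq_iff] at h5
    obtain ⟨⟨h6, h7⟩, h8⟩ := h5
    refine ⟨h6, h7, ?_, ?_⟩
    · intro h9
      rw [h9] at h8
      exact h8
    · intro h9
      rw [h9] at h8
      exact (beq_iff _ _).1 h8
  -- colours
  have p2 : ∀ c : ℕ, c < k → (∃ v, v < n ∧ mb (Ts.getD c []) v = true) ∧
      ∀ v, v < n → (mb (Ts.getD c []) v = true → ∃ w, w < n ∧ w ≠ v ∧ lk M v w = c) ∧
        (mb (Ts.getD c []) v = false → lk P c v < n ∧ lk P c v ≠ v ∧
          mb (Ts.getD c []) (lk P c v) = false ∧ lk M v (lk P c v) = c) := by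
    intro c hc
    have h3 := h2 c (List.mem_range.2 hc)
    rw [Bool.and_eq_true, List.any_eq_true, List.all_eq_true] at h3
    obtain ⟨⟨v, hv, hv2⟩, h4⟩ := h3
    refine ⟨⟨v, List.mem_range.1 hv, hv2⟩, ?_⟩
    intro v hv
    have h5 := h4 v (List.mem_range.2 hv)
    constructor
    · intro h6
      rw [h6] at h5
      simp only [cond_true] at h5
      rw [List.any_eq_true] at h5
      obtain ⟨w, hw, hw2⟩ := h5
      rw [Bool.and_eq_true, Bool.not_eq_true', beq_false_iff, beq_iff] at hw2
      exact ⟨w, List.mem_range.1 hw, hw2.1, hw2.2⟩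
    · intro h6
      rw [h6] at h5
      simp only [cond_false] at h5
      rw [Bool.and_eq_true, Bool.and_eq_true, Bool.and_eq_true, Bool.not_eq_true', Bool.not_eq_true',
        beq_false_iff, beq_iff, blt_iff] at h5
      exact ⟨h5.1.1.1, h5.1.1.2, h5.1.2, h5.2⟩
  have hcol : ∀ v w : Fin n, v ≠ w → ((tcol n k M v w : Fin k) : ℕ) = lk M v w := by
    intro v w hvw
    have hvw' : (v : ℕ) ≠ w := fun e => hvw (Fin.ext e)
    unfold tcol
    rw [if_neg hvw]
    simp only [Fin.ofNat]
    exact Nat.mod_eq_of_lt (p1 v w v.2 w.2 hvw').1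
  have hmT : ∀ (c : Fin k) (v : Fin n), v ∈ tT n k Ts c ↔ mb (Ts.getD c []) v = true := by
    intro c v
    unfold tT
    simp
  have hmF : ∀ (c : Fin k) (v : Fin n), v ∉ tT n k Ts c → mb (Ts.getD c []) v = false := by
    intro c v h
    rw [hmT] at h
    exact Bool.eq_false_iff.2 h
  refine ⟨?_, ?_, ?_, ?_, ?_⟩
  · intro v w
    by_cases hvw : v = w
    · rw [hvw]
    · have hvw' : (v : ℕ) ≠ w := fun e => hvw (Fin.ext e)
      apply Fin.ext
      rw [hcol v w hvw, hcol w v (Ne.symm hvw)]
      exact ((p1 v w v.2 w.2 hvw').2.1).symm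
  · intro c
    obtain ⟨⟨v, hv, hv2⟩, -⟩ := p2 c c.2
    exact ⟨⟨v, hv⟩, (hmT c ⟨v, hv⟩).2 hv2⟩
  · intro c v hv
    obtain ⟨w, hw, hwv, e⟩ := ((p2 c c.2).2 v v.2).1 ((hmT c v).1 hv)
    have hne : (⟨w, hw⟩ : Fin n) ≠ v := fun e' => hwv (congrArg Fin.val e')
    refine ⟨⟨w, hw⟩, hne, ?_⟩
    apply Fin.ext
    rw [hcol v _ hne.symm]
    exact e
  · intro c v hv w hwv e
    have hvw' : (v : ℕ) ≠ w := fun e => hwv (Fin.ext e.symm)
    have e1 : lk M v w = c := by rw [← hcol v w hwv.symm, e]
    have := (p1 v w v.2 w.2 hvw').2.2.1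
    rw [e1] at this
    exact (hmT c w).2 (this ((hmT c v).1 hv))
  · intro c v hv
    obtain ⟨a1, a2, a3, a4⟩ := ((p2 c c.2).2 v v.2).2 (hmF c v hv)
    have hne : (⟨lk P c v, a1⟩ : Fin n) ≠ v := fun e' => a2 (congrArg Fin.val e')
    refine ⟨⟨lk P c v, a1⟩, hne, ?_, ?_, ?_⟩
    · intro h
      have := (hmT c _).1 h
      rw [a3] at this
      exact Bool.noConfusion this
    · apply Fin.ext
      rw [hcol v _ hne.symm]
      exact a4
    · intro x hx e
      have hvx' : (v : ℕ) ≠ x := fun e => hx (Fin.ext e.symm)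
      have e1 : lk M v x = c := by rw [← hcol v x hx.symm, e]
      have := (p1 v x v.2 x.2 hvx').2.2.2
      rw [e1] at this
      apply Fin.ext
      exact (this (hmF c v hv)).symm

/-- the sum of the bounds for a table -/
theorem check_bound {n k : ℕ} [NeZero k] {M P Ts : List (List ℕ)} (h : good n k M P Ts = true) :
    ∏ c : Fin k, (n + 2 - (tT n k Ts c).card) ≤ Pool.Agent.Work.MP_1ce445_co_56.P n k :=
  (good_of_check h).bound (by simp) (by simp)

end Pool.Agent.Work.MP_1ce445_n3odd
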