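import Pool.Agent.Work.MP_1ce445_n3odd.Chk

/-! The tables of the general construction (helper83). -/

set_option autoImplicit false

namespace Pool.Agent.Work.MP_1ce445_n3odd

/-- table, `f = 9`, `K = 4` -/
def A9 : Table 9 6 := tbl 9 6 4
  [
    [(1, 4), (0, 3), (0, 4), (0, -2), (0, 0), (0, -4), (0, 0), (0, -3), (1, -4)],
    [(2, 0), (3, 0), (1, 3), (4, 0), (5, 0), (6, 0), (7, 0), (0, -2), (0, -4)],
    [(0, 4), (0, 4), (7, 0), (6, 0), (5, 0), (4, 0), (1, -1), (3, 0), (2, 0)],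
    [(1, 4), (0, 3), (1, 3), (1, 2), (0, 0), (1, 0), (1, -1), (0, -3), (1, -4)]]
  [
    [(0, 0), (0, 3), (0, 0), (4, 0), (0, 4), (3, 0), (2, 0), (0, -3), (0, 0)],
    [(10, 0), (1, 3), (9, 0), (8, 0), (7, 0), (6, 0), (5, 0), (1, -3), (0, 0)],
    [(0, 4), (10, 0), (9, 0), (8, 0), (7, 0), (6, 0), (5, 0), (0, 0), (0, -4)],
    [(1, 4), (4, 0), (3, 0), (0, 0), (1, 2), (2, 0), (1, 0), (0, 0), (1, -4)]]
  [
    [(false, 2), (true, 1)],
    [(false, 1), (true, -2)],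
    [(false, -1), (true, -3)],
    [(true, 2), (false, 2)],
    [(true, 1), (false, 1)],
    [(true, 0), (false, 0)],
    [(true, -1), (false, -1)],
    [(true, -2), (false, -2)],
    [(true, -3), (false, -4)]]
  [
    [(false, -2), (true, 4), (false, -4)],
    [(true, -1), (true, 3), (false, 3)]]

theorem A9_ok : A9.Ok := ok_of_chk (by decide +kernel)

/-- table, `f = 11`, `K = 5` -/
def A11 : Table 11 8 := tbl 11 8 5
  [
    [(0, 5), (1, 5), (1, 2), (1, -1), (1, 0), (0, 0), (1, -2), (1, -5), (1, -4), (1, -3), (0, -5)],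
    [(2, 0), (3, 0), (4, 0), (5, 0), (0, 3), (0, 3), (6, 0), (7, 0), (8, 0), (1, -3), (9, 0)],
    [(9, 0), (1, 5), (8, 0), (7, 0), (6, 0), (0, 3), (0, 1), (5, 0), (4, 0), (3, 0), (2, 0)],
    [(0, 5), (0, 4), (1, 1), (0, 2), (0, 3), (0, 0), (0, 1), (0, -2), (1, -5), (0, -4), (0, -5)]]
  [
    [(0, 5), (5, 0), (6, 0), (7, 0), (8, 0), (9, 0), (10, 0), (11, 0), (0, 0), (12, 0), (0, -5)],
    [(1, 5), (1, 4), (2, 0), (1, 2), (3, 0), (4, 0), (0, 0), (1, -2), (0, 0), (1, -4), (1, -5)],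
    [(0, -1), (0, 2), (0, 0), (0, 0), (0, -5), (0, -2), (2, 0), (0, -4), (3, 0), (4, 0), (0, 0)],
    [(1, 1), (5, 0), (6, 0), (7, 0), (8, 0), (9, 0), (1, -5), (10, 0), (11, 0), (12, 0), (0, 0)]]
  [
    [(true, 1), (false, -3)],
    [(true, 3), (false, -1)],
    [(true, 4), (false, 0)],
    [(false, -4), (true, -4)],
    [(false, -3), (true, -3)],
    [(false, -2), (true, -2)],
    [(false, -1), (true, -1)],
    [(false, 0), (true, 0)],
    [(false, 1), (true, 2)],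
    [(false, 2), (true, 3)],
    [(false, 4), (true, 4)]]
  [
    [(false, 3), (true, 1), (true, 3)],
    [(false, -3), (true, 5), (false, 5)]]

theorem A11_ok : A11.Ok := ok_of_chk (by decide +kernel)

/-- table, `f = 5`, `K = 2` -/
def B5 : Table 5 1 := tbl 5 1 2
  [
    [(0, 2), (0, 1), (0, 0), (0, -1), (0, -2)],
    [(1, 2), (0, 2), (1, 2), (0, -2), (2, 0)],
    [(2, 0), (0, 0), (1, 2), (0, 0), (1, -2)],
    [(1, 2), (1, 1), (0, 0), (1, -1), (1, -2)]]
  [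
    [(0, 0), (0, 1), (2, 0), (0, -1), (0, 0)],
    [(6, 0), (5, 0), (0, 0), (4, 0), (3, 0)],
    [(6, 0), (5, 0), (4, 0), (3, 0), (0, 0)],
    [(0, 0), (1, 1), (2, 0), (1, -1), (0, 0)]]
  [
    [(false, 0), (true, 0)],
    [(true, 1), (false, 2)],
    [(true, 0), (false, 1)],
    [(true, -1), (false, -1)],
    [(true, -2), (false, -2)]]
  [
    [(true, 0), (false, 2), (false, -2)],
    [(false, 2), (true, 2), (true, -2)]]

theorem B5_ok : B5.Ok := ok_of_chk (by decide +kernel)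

/-- table, `f = 15`, `K = 5` -/
def B15 : Table 15 11 := tbl 15 11 5
  [
    [(1, 5), (0, 4), (0, 5), (0, 5), (0, 1), (0, 0), (0, -1), (0, 1), (0, -1), (0, -4), (1, -5)],
    [(2, 0), (3, 0), (4, 0), (5, 0), (6, 0), (7, 0), (8, 0), (9, 0), (10, 0), (11, 0), (12, 0)],
    [(12, 0), (11, 0), (10, 0), (9, 0), (8, 0), (7, 0), (6, 0), (5, 0), (4, 0), (3, 0), (2, 0)],
    [(0, 5), (1, 4), (1, 5), (1, 5), (1, 1), (0, 0), (1, -1), (1, 1), (1, -1), (1, -4), (0, -5)]]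
  [
    [(2, 0), (0, 4), (3, 0), (4, 0), (0, 0), (5, 0), (0, 0), (6, 0), (7, 0), (0, -4), (0, 0)],
    [(1, 5), (8, 0), (9, 0), (10, 0), (11, 0), (12, 0), (13, 0), (14, 0), (15, 0), (16, 0), (1, -5)],
    [(0, 5), (8, 0), (9, 0), (10, 0), (11, 0), (12, 0), (13, 0), (14, 0), (15, 0), (16, 0), (0, -5)],
    [(2, 0), (1, 4), (3, 0), (4, 0), (0, 0), (5, 0), (0, 0), (6, 0), (7, 0), (1, -4), (0, 0)]]
  [
    [(false, -5), (true, -5)],
    [(false, -3), (true, -3)],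
    [(false, -2), (true, -2)],
    [(false, 0), (true, 0)],
    [(false, 2), (true, 2)],
    [(false, 3), (true, 3)],
    [(true, -4), (false, -4)],
    [(true, -3), (false, -3)],
    [(true, -2), (false, -2)],
    [(true, -1), (false, -1)],
    [(true, 0), (false, 0)],
    [(true, 1), (false, 1)],
    [(true, 2), (false, 2)],
    [(true, 3), (false, 3)],
    [(true, 4), (false, 4)]]
  [
    [(false, -1), (false, 1), (false, 5)],
    [(true, -1), (true, 1), (true, 5)]]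

theorem B15_ok : B15.Ok := ok_of_chk (by decide +kernel)

end Pool.Agent.Work.MP_1ce445_n3odd
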