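import Pool.Agent.Work.MP_1ce445_n3.Interface
import Pool.Agent.Work.MP_1ce445_n3odd.Odd3

/-!
The upper bound for `P n (n - 4)`, `n` odd (helper83), from `Stmt_LO3` of MP_1ce445_n3.
-/

set_option autoImplicit false

namespace Pool.Agent.Work.MP_1ce445_n3odd

open Finset Pool.Agent.Work.MP_1ce445_co_56

lemma one_le_dg {V : Type} [Fintype V] [DecidableEq V] {G : SimpleGraph V}
    (h : ∀ v, ∃ w, G.Adj v w) (v : V) : 1 ≤ dg G v := by
  classical
  obtain ⟨w, hw⟩ := h v
  exact card_pos.2 ⟨w, by simpa using hw⟩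

/-- parity of the total excess -/
lemma excess_odd {V : Type} [Fintype V] [DecidableEq V] {G : SimpleGraph V}
    (h : ∀ v, ∃ w, G.Adj v w) (hodd : Odd (Fintype.card V)) : Odd (∑ v, (dg G v - 1)) := by
  classical
  have h2 := G.sum_degrees_eq_twice_card_edges
  have h3 : ∀ v, G.degree v = dg G v := by
    intro v
    rw [← SimpleGraph.card_neighborFinset_eq_degree]
    unfold dg
    congr 1
    ext w
    simp
  simp only [h3] at h2
  have h4 : ∑ v, (dg G v - 1) + Fintype.card V = ∑ v, dg G v := by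
    have : Fintype.card V = ∑ _v : V, 1 := by simp
    rw [this, ← sum_add_distrib]
    refine sum_congr rfl fun v _ => ?_
    have := one_le_dg h v
    omega
  rw [h2] at h4
  obtain ⟨a, ha⟩ := hodd
  rw [ha] at h4
  exact ⟨G.edgeFinset.card - a - 1, by omega⟩

/-- excess of the factors with small loss, `n` odd -/
lemma excess_small (hLO : Pool.Agent.Work.MP_1ce445_n3.Stmt_LO3) {V : Type} [Fintype V]
    [DecidableEq V] {G : SimpleGraph V} (h : ∀ v, ∃ w, G.Adj v w) (hodd : Odd (Fintype.card V))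
    (h2 : Fintype.card V ≤ gammaT G + 2) :
    ∑ v, (dg G v - 1) ≤ 7 ∧ (Fintype.card V ≤ gammaT G + 1 → ∑ v, (dg G v - 1) ≤ 3) := by
  have hd : ∀ v, 1 ≤ dg G v ∧ dg G v ≤ 3 := by
    intro v
    refine ⟨one_le_dg h v, ?_⟩
    have := L1 h v
    omega
  have h3 := hLO G hd
  obtain ⟨a, ha⟩ := excess_odd h hodd
  constructor
  · omega
  · intro h4
    omega

/-- the total excess of a factorization -/
lemma total_excess {n k : ℕ} {G : Fin k → SimpleGraph (Fin n)} (hG : IsFactorization G) :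
    ∑ j, ∑ v, (dg (G j) v - 1) + n * k = n * (n - 1) := by
  classical
  have h1 : ∀ v : Fin n, ∑ j, (dg (G j) v - 1) + k = n - 1 := by
    intro v
    have h2 := sum_degree hG v
    rw [Fintype.card_fin] at h2
    have h3 : ∑ j, dg (G j) v = n - 1 := h2
    have h5 : ∑ j, (dg (G j) v - 1) + ∑ _j : Fin k, 1 = ∑ j, dg (G j) v := by
      rw [← sum_add_distrib]
      refine sum_congr rfl fun j _ => ?_
      have := one_le_dg (hG.minDeg j) v
      omega
    rw [h3] at h5
    simpa using h5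
  rw [sum_comm]
  have h5 : n * k = ∑ _v : Fin n, k := by simp
  rw [h5, ← sum_add_distrib, sum_congr rfl fun v _ => h1 v]
  simp

lemma count_aux {n E a b : ℕ} (h7 : 7 ≤ n) (h1 : E + n * (n - 4) = n * (n - 1))
    (h2 : E ≤ 7 * b + 3 * a) (h3 : a + b = n - 4) : 3 ≤ b := by
  obtain ⟨t, rfl⟩ : ∃ t, n = t + 4 := ⟨n - 4, by omega⟩
  have e1 : t + 4 - 4 = t := by omega
  have e2 : t + 4 - 1 = t + 3 := by omega
  rw [e2, e1] at h1
  rw [e1] at h3
  have h4 : (t + 4) * (t + 3) = (t + 4) * t + 3 * (t + 4) := by ring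
  omega

theorem odd4_upper (hLO : Pool.Agent.Work.MP_1ce445_n3.Stmt_LO3) {n : ℕ} (h7 : 7 ≤ n) (hn : Odd n) :
    P n (n - 4) ≤ (n - 1) ^ (n - 5) * (n - 3) := by
  classical
  apply P_le
  intro G hG
  have hle : ∀ j, gammaT (G j) ≤ n - 1 := by
    intro j
    have := gammaT_add_one_le (hG.minDeg j) (by simpa using hn)
    rw [Fintype.card_fin] at this
    omega
  by_cases hC : ∃ j, gammaT (G j) ≤ n - 3
  · obtain ⟨j, hj⟩ := hC
    rw [← Finset.prod_erase_mul univ _ (mem_univ j)]
    apply Nat.mul_le_mul _ hj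
    calc ∏ i ∈ univ.erase j, gammaT (G i) ≤ ∏ _i ∈ univ.erase j, (n - 1) :=
          Finset.prod_le_prod' fun i _ => hle i
      _ = (n - 1) ^ (n - 5) := by
          rw [prod_const, card_erase_of_mem (mem_univ j), card_univ, Fintype.card_fin]
          congr 1
  · have hC' : ∀ j, n - 2 ≤ gammaT (G j) := by
      intro j
      by_contra hcon
      exact hC ⟨j, by omega⟩
    set B : Finset (Fin (n - 4)) := univ.filter fun j => gammaT (G j) ≤ n - 2 with hB
    have hex : ∀ j, ∑ v, (dg (G j) v - 1) ≤ 7 ∧ (j ∉ B → ∑ v, (dg (G j) v - 1) ≤ 3) := by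
      intro j
      have h1 := excess_small hLO (hG.minDeg j) (by simpa using hn) (by
        rw [Fintype.card_fin]
        have := hC' j
        omega)
      refine ⟨h1.1, fun hj => h1.2 ?_⟩
      rw [Fintype.card_fin]
      have : ¬ gammaT (G j) ≤ n - 2 := fun h => hj (by rw [hB, mem_filter]; exact ⟨mem_univ _, h⟩)
      omega
    have hB3 : 3 ≤ B.card := by
      have h1 := total_excess hG
      have h2 : ∑ j, ∑ v, (dg (G j) v - 1) ≤ 7 * B.card + 3 * (univ \ B).card := by
        rw [← sum_sdiff (subset_univ B), add_comm]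
        apply Nat.add_le_add
        · calc ∑ j ∈ B, ∑ v, (dg (G j) v - 1) ≤ ∑ _j ∈ B, 7 := sum_le_sum fun j _ => (hex j).1
            _ = 7 * B.card := by rw [sum_const, smul_eq_mul, mul_comm]
        · calc ∑ j ∈ univ \ B, ∑ v, (dg (G j) v - 1) ≤ ∑ _j ∈ univ \ B, 3 :=
              sum_le_sum fun j hj => (hex j).2 (mem_sdiff.1 hj).2
            _ = 3 * (univ \ B).card := by rw [sum_const, smul_eq_mul, mul_comm]
      have h3 : (univ \ B).card + B.card = n - 4 := by
        rw [card_sdiff_add_card_eq_card (subset_univ B), card_univ, Fintype.card_fin]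
      exact count_aux h7 h1 h2 h3
    obtain ⟨B3, hB3s, hB3c⟩ := exists_subset_card_eq hB3
    have h1 : ∏ j, gammaT (G j) ≤ (n - 1) ^ (n - 4 - 3) * (n - 2) ^ 3 := by
      rw [← prod_sdiff (subset_univ B3)]
      apply Nat.mul_le_mul
      · calc ∏ i ∈ univ \ B3, gammaT (G i) ≤ ∏ _i ∈ univ \ B3, (n - 1) :=
              Finset.prod_le_prod' fun i _ => hle i
          _ = (n - 1) ^ (n - 4 - 3) := by
              rw [prod_const, card_sdiff_of_subset (subset_univ B3), card_univ, Fintype.card_fin,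
                hB3c]
      · calc ∏ i ∈ B3, gammaT (G i) ≤ ∏ _i ∈ B3, (n - 2) :=
              Finset.prod_le_prod' fun i hi => (mem_filter.1 (hB3s hi)).2
          _ = (n - 2) ^ 3 := by rw [prod_const, hB3c]
    refine h1.trans ?_
    obtain ⟨t, rfl⟩ : ∃ t, n = t + 7 := ⟨n - 7, by omega⟩
    have e1 : t + 7 - 1 = t + 6 := by omega
    have e2 : t + 7 - 4 - 3 = t := by omega
    have e3 : t + 7 - 2 = t + 5 := by omega
    have e4 : t + 7 - 5 = t + 2 := by omega
    have e5 : t + 7 - 3 = t + 4 := by omega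
    rw [e1, e2, e3, e4, e5, pow_add, mul_assoc]
    apply Nat.mul_le_mul_left
    nlinarith [sq_nonneg (t : ℤ)]

/-- For every odd `n ≥ 13` we have `P n (n - 4) = (n - 1) ^ (n - 5) * (n - 3)`. -/
theorem odd4 (hLO : Pool.Agent.Work.MP_1ce445_n3.Stmt_LO3) {n : ℕ} (h13 : 13 ≤ n) (hn : Odd n) :
    P n (n - 4) = (n - 1) ^ (n - 5) * (n - 3) :=
  le_antisymm (odd4_upper hLO (by omega) hn) (low_odd4 h13 hn)

end Pool.Agent.Work.MP_1ce445_n3odd
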